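import Pool.Agent.H8.DS.TarG

/-!
# CL1: closed leaves that consist of one piece
-/

namespace DS

open Set Data

theorem pf_CL1 (hEQS : T_EQS) (hEQV : T_EQV) : T_CL1 := by
  intro C S X hX hU t ht P m hstep
  have hstep0 := hstep
  obtain ⟨c, z, r, h, g, hs, hh, hclear, -, hg, hQ, rfl⟩ := hstep
  cases hs with
  | pure c z hz =>
    right
    have e : z = act g (fwd t z h) := (Prod.ext_iff.1 hQ).2
    have e1 := congrArg Prod.fst e
    have e2 := congrArg Prod.snd e
    have hgood := hX.good c
    obtain ⟨⟨a, b⟩, rfl⟩ := hg
    cases hk : X.kind c with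
    | flat u v =>
      exfalso
      rw [hk] at e1 e2
      simp only [Comp.el, act, fwd] at e1 e2
      have h1 : (a : ℝ) * u.1 + (b : ℝ) * v.1 = t * ((a : ℝ) * u.2 + (b : ℝ) * v.2) := by
        have h2 : (a : ℝ) * u.2 + (b : ℝ) * v.2 = -h := by linarith
        rw [h2]
        linarith
      obtain ⟨h3, h4⟩ := ht.irr c u v hk a b h1
      subst h3 h4
      push_cast at e2
      linarith
    | hopf l =>
      have hH : X.Hopf c := by unfold Data.Hopf; rw [hk]; trivial
      rw [hk] at e1 e2 hgood
      simp only [Comp.Good] at hgood
      simp only [Comp.el, act, fwd, add_zero] at e1 e2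
      have hl0 : 0 < l := by linarith
      have hne : l ^ a ≠ 1 := by
        intro h1
        rw [h1] at e2
        linarith
      have hpos : 0 < l ^ a := zpow_pos hl0 a
      refine ⟨hH, ?_, z.2, ?_, ?_⟩
      · simp only [Comp.el, one_mul]
        exact hne
      · refine Prod.ext ?_ rfl
        change z.1 = z.2 * t
        have h5 : (1 - l ^ a) * (z.1 - z.2 * t) = 0 := by linear_combination e1 - t * e2
        rcases mul_eq_zero.1 h5 with h6 | h6
        · exact absurd (by linarith) hne
        · linarith
      · have hz2 : z.2 ≠ 0 := by
          intro h0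
          rw [h0] at e2
          have : 0 < l ^ a * (0 + h) := by positivity
          linarith
        rcases lt_or_gt_of_ne hz2 with h7 | h7
        · exact Or.inl h7
        · right
          refine ⟨h7, ?_⟩
          intro k' hk'
          have hz1 : z.1 = z.2 * t := by
            have h5 : (1 - l ^ a) * (z.1 - z.2 * t) = 0 := by linear_combination e1 - t * e2
            rcases mul_eq_zero.1 h5 with h6 | h6
            · exact absurd (by linarith) hne
            · linarith
          have hlt : l ^ a < 1 := by
            by_contra hcon
            push Not at hcon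
            nlinarith [mul_pos hpos hh]
          have hq1 : 1 < l ^ (-a) := by
            rw [zpow_neg]
            exact (one_lt_inv₀ hpos).2 hlt
          have hqpos : 0 < l ^ (-a) := zpow_pos hl0 _
          have hqk : z.2 + h = l ^ (-a) * z.2 := by
            rw [zpow_neg]
            field_simp
            linarith
          obtain ⟨j, hj1, hj2⟩ := exists_mem_Ico_zpow (x := k' / z.2) (y := l ^ (-a))
            (div_pos hk' h7) hq1
          -- use the exponent `-j`
          set x' := (l ^ (-a)) ^ (-j) * k' with hx'
          have hjpos : 0 < (l ^ (-a)) ^ j := zpow_pos hqpos j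
          have h8 : z.2 ≤ x' := by
            rw [hx', zpow_neg, le_inv_mul_iff₀ hjpos]
            rw [le_div_iff₀ h7] at hj1
            linarith
          have h9 : x' < l ^ (-a) * z.2 := by
            rw [hx', zpow_neg, inv_mul_lt_iff₀ hjpos]
            rw [div_lt_iff₀ h7, zpow_add_one₀ hqpos.ne'] at hj2
            linarith
          have hpx : X.Pure c (x' * t, x') := by
            rcases eq_or_lt_of_le h8 with h10 | h10
            · rw [← h10]
              have : (z.2 * t, z.2) = z := Prod.ext hz1.symm rfl
              rw [this]
              exact hz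
            · have h11 := hclear (x' - z.2) (by linarith) (by linarith)
              have : fwd t z (x' - z.2) = (x' * t, x') := by
                refine Prod.ext ?_ ?_
                · simp only [fwd]
                  rw [hz1]
                  ring
                · simp only [fwd]
                  ring
              rw [this] at h11
              exact h11
          have hdeck : (((l ^ (-a)) ^ (-j), 0, 0) : ℝ × ℝ × ℝ) ∈ X.deck c := by
            refine ⟨(a * j, 0), ?_⟩
            rw [hk]
            simp only [Comp.el]
            rw [← zpow_mul]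
            congr 2
            ring
          have h12 := (hEQV C S X hX c _ hdeck (k' * t, k')).2.2.1
          have h13 : act (((l ^ (-a)) ^ (-j), 0, 0) : ℝ × ℝ × ℝ) (k' * t, k') = (x' * t, x') := by
            refine Prod.ext ?_ ?_
            · simp only [act, add_zero, hx']
              ring
            · simp only [act, add_zero, hx']
          rw [h13] at h12
          exact h12.1 hpx
  | cross s g₁ ξ hg₁ h0 h1 =>
    left
    refine ⟨(s, ξ), ⟨h0, h1⟩, ?_, ?_⟩
    · refine ⟨rfl, ginv g₁, deck_inv X hX _ g₁ hg₁, ?_⟩
      exact (act_ginv g₁ (deck_pos X hX _ g₁ hg₁).ne' (X.pt s ξ)).symm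
    · have hi : ginv g₁ ∈ X.deck (X.comp s) := deck_inv X hX _ g₁ hg₁
      have hpos : 0 < (ginv g₁).1 := deck_pos X hX _ _ hi
      have e1 := (hEQS C S X hX t _ _ _ hstep0).1 (ginv g₁) hi
      have e2 := (hEQS C S X hX t _ _ _ e1).2.1 (ginv g₁) hi
      simp only [act_ginv g₁ (deck_pos X hX _ g₁ hg₁).ne'] at e2
      rw [div_mul_cancel₀ _ hpos.ne'] at e2
      exact ⟨(s, ξ), _, 1, ⟨h0, h1⟩, e2, ⟨rfl, rfl⟩, (mul_one _).symm⟩

end DS
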