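import Pool.Agent.H8.DS.TarG

/-!
# LOOP: periodic orbits of the first return are contracting
-/

namespace DS

open Set Data

namespace H19LOOP

variable {C S : Type}

/-- the derivative of a step is positive -/
theorem step_pos (X : Data C S) (hX : X.Surface) {t : ℝ} {P Q : C × ℝ × ℝ} {m : ℝ}
    (h : X.Step t P Q m) : 0 < m := by
  obtain ⟨c, z, r, k, g, hs, -, -, -, hg, -, rfl⟩ := h
  have h1 := deck_pos X hX c g hg
  have h2 : 0 < r := by
    cases hs with
    | pure c z h => exact one_pos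
    | cross s g' ξ hg' h0 h1' =>
      have h3 := deck_pos X hX _ g' hg'
      have h4 := hX.pos s
      have h5 := hX.pos (X.glue s)
      positivity
  exact mul_pos h2 h1

/-- initial pieces of flat chains -/
theorem fc_init (X : Data C S) (t : ℝ) (a b : ℕ) (x x'' : S × ℝ) (h : X.FC t (a + b) x x'') :
    ∃ x', X.FC t a x x' := by
  induction a generalizing x with
  | zero => exact ⟨x, rfl⟩
  | succ a ih =>
    rw [show a + 1 + b = (a + b) + 1 by omega] at h
    obtain ⟨y, h1, h2, h3⟩ := h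
    obtain ⟨x', h4⟩ := ih y h3
    exact ⟨x', y, h1, h2, h4⟩

/-- composition of flat chains -/
theorem fc_trans (X : Data C S) (t : ℝ) (a b : ℕ) (x x' x'' : S × ℝ) (h : X.FC t a x x')
    (h' : X.FC t b x' x'') : X.FC t (a + b) x x'' := by
  induction a generalizing x with
  | zero =>
    simp only [Data.FC] at h
    subst h
    rw [Nat.zero_add]
    exact h'
  | succ a ih =>
    obtain ⟨y, h1, h2, h3⟩ := h
    rw [show a + 1 + b = (a + b) + 1 by omega]
    exact ⟨y, h1, h2, ih y h3⟩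

theorem fc_iter (X : Data C S) (t : ℝ) (n k : ℕ) (y : S × ℝ) (h : X.FC t n y y) :
    X.FC t (n * k) y y := by
  induction k with
  | zero => rfl
  | succ k ih =>
    rw [Nat.mul_succ]
    exact fc_trans X t _ _ y y y ih h

theorem chain (hFAC : T_FAC) (hHS : T_HS) (X : Data C S) (w : S → ℝ) (hX : X.Surface)
    (hw : X.Wt w) (t : ℝ) (n : ℕ) : ∀ (y y' : S × ℝ) (m : ℝ), y.2 ∈ Ioo (0 : ℝ) 1 →
    X.Ch t n y y' m → 0 < m ∧ m * w y.1 ≤ w y'.1 ∧ (m * w y.1 < w y'.1 ∨ X.FC t n y y') := by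
  induction n with
  | zero =>
    rintro y y' m hy ⟨rfl, rfl⟩
    exact ⟨one_pos, by rw [one_mul], Or.inr rfl⟩
  | succ n ih =>
    rintro y y' m hy ⟨y₁, m₁, m₂, hy₁, hs, hc, rfl⟩
    obtain ⟨h1, h2⟩ := hFAC C S X w hX hw t y y₁ m₁ hy hy₁ hs
    obtain ⟨h3, h4, h5⟩ := ih y₁ y' m₂ hy₁ hc
    have h6 : 0 < m₁ := step_pos X hX hs
    have e : m₁ * m₂ * w y.1 = m₂ * (m₁ * w y.1) := by ring
    have h7 : m₂ * (m₁ * w y.1) ≤ m₂ * w y₁.1 := mul_le_mul_of_nonneg_left h1 h3.le
    refine ⟨mul_pos h6 h3, by rw [e]; exact h7.trans h4, ?_⟩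
    by_cases hH : X.Hopf (X.comp (X.glue y.1))
    · left
      rw [e]
      exact lt_of_lt_of_le (mul_lt_mul_of_pos_left (h2 hH) h3) h4
    · rcases h5 with h5 | h5
      · left
        rw [e]
        exact lt_of_le_of_lt h7 h5
      · right
        exact ⟨y₁, (hHS C S X hX t y y₁ hy hy₁).2 ⟨m₁, hs⟩, hH, h5⟩

end H19LOOP

open H19LOOP in
theorem pf_LOOP (hFAC : T_FAC) (hHS : T_HS) : T_LOOP := by
  intro C S X w hX hw t hN y n m hy hn hc
  obtain ⟨N, hN⟩ := hN
  obtain ⟨h1, h2, h3⟩ := chain hFAC hHS X w hX hw t n y y m hy hc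
  have hwpos := hw.pos y.1
  rcases h3 with h3 | h3
  · by_contra hm
    push Not at hm
    nlinarith
  · exfalso
    have h4 := fc_iter X t n N y h3
    have h5 : N ≤ n * N := Nat.le_mul_of_pos_left N hn
    obtain ⟨d, hd⟩ := Nat.exists_eq_add_of_le h5
    rw [hd] at h4
    obtain ⟨x', hx'⟩ := fc_init X t N d y y h4
    exact hN y x' hx'

end DS
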