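import Pool.Agent.H8.DS.TarA

/-!
# REVGO: words of the inverse system
-/

namespace DS

open Set

theorem pf_REVGO : T_REVGO := by
  intro S B Y w
  induction w with
  | nil =>
    intro y y' h
    simp only [Sys.Go] at h
    subst h
    rfl
  | cons b w ih =>
    intro y y' h
    obtain ⟨h1, h2, h3⟩ := h
    rw [List.reverse_cons, Sys.Go_append]
    refine ⟨(Y.tgt b, Y.al b * y.2 + Y.c b), ih _ _ h3, ?_⟩
    rw [Sys.Go_single]
    refine ⟨rfl, ⟨y.2, h2, rfl⟩, ?_⟩
    have ha := (Y.al_pos b).ne'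
    refine Prod.ext h1 ?_
    change (Y.al b)⁻¹ * (Y.al b * y.2 + Y.c b) + -(Y.c b) / Y.al b = y.2
    field_simp
    ring

end DS
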