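import Pool.Agent.H8.DS.TarG

/-!
# TUBE: a clear segment stays clear when it is moved a little
-/

namespace DS

open Set Data

theorem pf_TUBE (hISOL : T_ISOL) : T_TUBE := by
  intro C S _ X hX t c z h hne hclear
  have main : ∃ ε > 0, ∀ δ : ℝ, |δ| < ε → ∀ k ∈ Icc (0 : ℝ) h, 0 < k → k < h →
      X.Pure c (fwd t (z.1 + δ, z.2) k) := by
    refine isCompact_Icc.induction_on
      (p := fun A : Set ℝ => ∃ ε > 0, ∀ δ : ℝ, |δ| < ε → ∀ k ∈ A, 0 < k → k < h →
        X.Pure c (fwd t (z.1 + δ, z.2) k)) ?_ ?_ ?_ ?_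
    · exact ⟨1, one_pos, fun δ _ k hk => absurd hk (Set.notMem_empty k)⟩
    · rintro A A' hAA' ⟨ε, hε, H⟩
      exact ⟨ε, hε, fun δ hδ k hk => H δ hδ k (hAA' hk)⟩
    · rintro A A' ⟨ε, hε, H⟩ ⟨ε', hε', H'⟩
      refine ⟨min ε ε', lt_min hε hε', fun δ hδ k hk => ?_⟩
      rcases hk with hk | hk
      · exact H δ (lt_of_lt_of_le hδ (min_le_left _ _)) k hk
      · exact H' δ (lt_of_lt_of_le hδ (min_le_right _ _)) k hk
    · intro k₀ hk₀
      have hp : X.Hopf c → fwd t z k₀ ≠ 0 := by
        intro hc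
        rcases eq_or_lt_of_le hk₀.1 with h0 | h0
        · rw [← h0, fwd_zero]
          exact (hne hc).1
        · rcases eq_or_lt_of_le hk₀.2 with h1 | h1
          · rw [h1]
            exact (hne hc).2
          · exact (hclear k₀ h0 h1).2 hc
      obtain ⟨η, hη, H⟩ := hISOL C S X hX c (fwd t z k₀) hp
      have ht : 0 < 2 + |t| := by positivity
      have hη' : 0 < η / (2 + |t|) := div_pos hη ht
      refine ⟨Metric.ball k₀ (η / (2 + |t|)) ∩ Icc 0 h, ?_, η / (2 + |t|), hη', ?_⟩
      · rw [inter_comm]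
        exact inter_mem_nhdsWithin _ (Metric.ball_mem_nhds k₀ hη')
      · rintro δ hδ k ⟨hk, -⟩ hk0 hkh
        rw [Metric.mem_ball, Real.dist_eq] at hk
        by_contra hnp
        have e : η = (η / (2 + |t|)) * (2 + |t|) := by field_simp
        set θ := η / (2 + |t|) with hθ
        have h1 : |(fwd t (z.1 + δ, z.2) k).1 - (fwd t z k₀).1| < η := by
          have : (fwd t (z.1 + δ, z.2) k).1 - (fwd t z k₀).1 = δ + t * (k - k₀) := by
            simp only [fwd]; ring
          rw [this]
          calc |δ + t * (k - k₀)| ≤ |δ| + |t * (k - k₀)| := abs_add_le _ _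
            _ = |δ| + |t| * |k - k₀| := by rw [abs_mul]
            _ ≤ |δ| + |t| * θ := by
                have := mul_le_mul_of_nonneg_left hk.le (abs_nonneg t)
                linarith
            _ < η := by
                rw [e]
                nlinarith [abs_nonneg t]
        have h2 : |(fwd t (z.1 + δ, z.2) k).2 - (fwd t z k₀).2| < η := by
          have : (fwd t (z.1 + δ, z.2) k).2 - (fwd t z k₀).2 = k - k₀ := by
            simp only [fwd]; ring
          rw [this]
          have h3 : θ ≤ η := by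
            rw [e]
            nlinarith [abs_nonneg t]
          exact lt_of_lt_of_le hk h3
        obtain ⟨s, hs, g, hg, ξ, hξ, ξ', hξ', e1, e2⟩ := H _ h1 h2 hnp
        have e3 := congrArg Prod.snd e1
        have e4 := congrArg Prod.snd e2
        simp only [fwd, act, pt] at e3 e4
        have e5 : k = k₀ := by linarith
        subst e5
        exact (hclear k hk0 hkh).1 ⟨s, hs, g, hg, ξ, hξ, e1⟩
  obtain ⟨ε, hε, H⟩ := main
  exact ⟨ε, hε, fun δ hδ k hk hkh => H δ hδ k ⟨hk.le, hkh.le⟩ hk hkh⟩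

end DS
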